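import Mathlib

/-!
# MP_28ad66_co: covering families in `Z_s^q` for composite `s`

`IsCovering s q F`: the difference of any two distinct members of `F ⊆ Z_s^q` takes every value
of `Z_s` in some coordinate.  `R s q` is the largest size of a covering family.
-/

namespace Pool.Agent.Results.MP_28ad66_co.CompositeModulus

open Finset

/-- A finite family of vectors in `Z_s^q` is covering if for any two distinct members `v, w`
the difference `v - w` takes every value of `Z_s` in some coordinate. -/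
def IsCovering (s q : ℕ) (F : Finset (Fin q → ZMod s)) : Prop :=
  ∀ v ∈ F, ∀ w ∈ F, v ≠ w → ∀ a : ZMod s, ∃ i : Fin q, v i - w i = a

/-- `R(s,q)`: the largest size of a covering family in `Z_s^q`. -/
noncomputable def R (s q : ℕ) : ℕ :=
  sSup {n : ℕ | ∃ F : Finset (Fin q → ZMod s), IsCovering s q F ∧ F.card = n}

/-! ### Linear algebra -/

/-- If vectors `x i ∈ ℚ^q` (`i ∈ ι`) and `y i` satisfy `∏ⱼ (x i j - y k j) = 0` for `i ≠ k`
and `≠ 0` for `i = k`, then `|ι| ≤ 2^q`. -/
theorem card_le_two_pow {ι : Type*} [Fintype ι] [DecidableEq ι] {q : ℕ}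
    (x y : ι → Fin q → ℚ)
    (hd : ∀ i, ∏ j, (x i j - y i j) ≠ 0)
    (ho : ∀ i k, i ≠ k → ∏ j, (x i j - y k j) = 0) :
    Fintype.card ι ≤ 2 ^ q := by
  classical
  let L : ι → (Finset (Fin q) → ℚ) := fun i S => ∏ j ∈ S, x i j
  have hpair : ∀ i k, ∏ j, (x i j - y k j) =
      ∑ S : Finset (Fin q), L i S * ∏ j ∈ Sᶜ, (- y k j) := by
    intro i k
    have h1 : ∏ j, (x i j - y k j) = ∏ j, (x i j + (- y k j)) := by
      simp [sub_eq_add_neg]
    rw [h1, Finset.prod_add]
    rw [Finset.powerset_univ]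
    refine Finset.sum_congr rfl ?_
    intro S _
    simp only [L]
    congr 1
  have hli : LinearIndependent ℚ L := by
    rw [Fintype.linearIndependent_iff]
    intro c hc k
    have h2 : ∑ i, c i * ∏ j, (x i j - y k j) = 0 := by
      have h3 : ∀ S : Finset (Fin q), ∑ i, c i * L i S = 0 := by
        intro S
        have := congrFun hc S
        simpa [Finset.sum_apply, smul_eq_mul] using this
      calc ∑ i, c i * ∏ j, (x i j - y k j)
          = ∑ i, c i * ∑ S : Finset (Fin q), L i S * ∏ j ∈ Sᶜ, (- y k j) := by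
            refine Finset.sum_congr rfl fun i _ => by rw [hpair]
        _ = ∑ i, ∑ S : Finset (Fin q), c i * (L i S * ∏ j ∈ Sᶜ, (- y k j)) := by
            refine Finset.sum_congr rfl fun i _ => by rw [Finset.mul_sum]
        _ = ∑ S : Finset (Fin q), ∑ i, c i * (L i S * ∏ j ∈ Sᶜ, (- y k j)) :=
            Finset.sum_comm
        _ = ∑ S : Finset (Fin q), (∑ i, c i * L i S) * ∏ j ∈ Sᶜ, (- y k j) := by
            refine Finset.sum_congr rfl fun S _ => ?_
            rw [Finset.sum_mul]
            refine Finset.sum_congr rfl fun i _ => by ring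
        _ = 0 := by simp [h3]
    rw [Finset.sum_eq_single k] at h2
    · exact (mul_eq_zero.mp h2).resolve_right (hd k)
    · intro i _ hik
      rw [ho i k hik, mul_zero]
    · simp
  have := hli.fintype_card_le_finrank
  simpa [Module.finrank_fintype_fun_eq_card] using this

/-! ### The main inequality -/

/-- Number of coordinates where the difference is `1` modulo a divisor `g` of `s`. -/
theorem many_ones {s g q : ℕ} (hg : 2 ≤ g) (hs : 0 < s) (hgs : g ∣ s)
    (v w : Fin q → ZMod s) (h : ∀ a : ZMod s, ∃ i : Fin q, v i - w i = a) :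
    s / g ≤ (univ.filter fun i : Fin q =>
      (ZMod.castHom hgs (ZMod g)) (v i) = (ZMod.castHom hgs (ZMod g)) (w i) + 1).card := by
  classical
  have : NeZero s := ⟨hs.ne'⟩
  choose f hf using h
  have hinj : Function.Injective (fun k : Fin (s / g) => f ((1 + g * (k : ℕ) : ℕ) : ZMod s)) := by
    intro k l hkl
    have h1 : v (f ((1 + g * (k : ℕ) : ℕ) : ZMod s)) - w (f ((1 + g * (k : ℕ) : ℕ) : ZMod s))
        = v (f ((1 + g * (l : ℕ) : ℕ) : ZMod s)) - w (f ((1 + g * (l : ℕ) : ℕ) : ZMod s)) := by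
      have : f ((1 + g * (k : ℕ) : ℕ) : ZMod s) = f ((1 + g * (l : ℕ) : ℕ) : ZMod s) := hkl
      rw [this]
    rw [hf, hf] at h1
    rw [ZMod.natCast_eq_natCast_iff'] at h1
    have hlt : ∀ m : Fin (s / g), 1 + g * (m : ℕ) < s := by
      intro m
      have h2 : (m : ℕ) + 1 ≤ s / g := m.isLt
      have h3 : g * ((m : ℕ) + 1) ≤ g * (s / g) := Nat.mul_le_mul_left _ h2
      rw [Nat.mul_div_cancel' hgs] at h3
      nlinarith
    rw [Nat.mod_eq_of_lt (hlt k), Nat.mod_eq_of_lt (hlt l)] at h1
    have h4 : g * (k : ℕ) = g * (l : ℕ) := by omega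
    exact Fin.ext (Nat.eq_of_mul_eq_mul_left (by omega) h4)
  calc s / g = (univ : Finset (Fin (s / g))).card := by simp
    _ = (univ.image (fun k : Fin (s / g) => f ((1 + g * (k : ℕ) : ℕ) : ZMod s))).card :=
        (Finset.card_image_of_injective _ hinj).symm
    _ ≤ _ := by
        refine Finset.card_le_card ?_
        intro i hi
        rw [Finset.mem_image] at hi
        obtain ⟨k, -, rfl⟩ := hi
        rw [Finset.mem_filter]
        refine ⟨Finset.mem_univ _, ?_⟩
        have h5 := hf ((1 + g * (k : ℕ) : ℕ) : ZMod s)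
        have h6 : v (f ((1 + g * (k : ℕ) : ℕ) : ZMod s)) =
            ((1 + g * (k : ℕ) : ℕ) : ZMod s) + w (f ((1 + g * (k : ℕ) : ℕ) : ZMod s)) :=
          sub_eq_iff_eq_add.mp h5
        rw [h6, map_add, map_natCast]
        push_cast
        rw [ZMod.natCast_self]
        ring

/-- Main inequality: if `g ∣ s`, `g ≥ 2` and `2 t < s / g`, then a covering family `F` in
`Z_s^q` satisfies `|F| * ∑_{i ≤ t} C(q,i) ≤ 2^q`. -/
theorem main {s g q t : ℕ} (hg : 2 ≤ g) (hs : 0 < s) (hgs : g ∣ s) (ht : 2 * t < s / g)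
    (F : Finset (Fin q → ZMod s)) (hF : IsCovering s q F) :
    F.card * ∑ i ∈ range (t + 1), q.choose i ≤ 2 ^ q := by
  classical
  have : NeZero g := ⟨by omega⟩
  let φ : ZMod s →+* ZMod g := ZMod.castHom hgs (ZMod g)
  let α : ZMod g → ℚ := fun a => (a.val : ℚ)
  have hα : Function.Injective α := by
    intro a b hab
    have h0 : (a.val : ℚ) = (b.val : ℚ) := hab
    have h1 : a.val = b.val := by exact_mod_cast h0
    exact ZMod.val_injective g h1
  let B : Finset (Finset (Fin q)) := univ.filter fun A => A.card ≤ t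
  have hB : B.card = ∑ i ∈ range (t + 1), q.choose i := by
    have h1 : B = (range (t + 1)).biUnion fun i => Finset.powersetCard i univ := by
      ext A
      simp [B, Finset.mem_powersetCard]
    rw [h1, Finset.card_biUnion]
    · simp [Finset.card_powersetCard]
    · intro i _ j _ hij
      exact Finset.pairwise_disjoint_powersetCard _ hij
  have hone : (1 : ZMod g) ≠ 0 := by
    have : Fact (1 < g) := ⟨by omega⟩
    exact one_ne_zero
  let ι := {p : (Fin q → ZMod s) × Finset (Fin q) // p ∈ F ×ˢ B}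
  let x : ι → Fin q → ℚ := fun p j =>
    if j ∈ p.1.2 then α (φ (p.1.1 j) + 1) else α (φ (p.1.1 j))
  let y : ι → Fin q → ℚ := fun p j =>
    if j ∈ p.1.2 then α (φ (p.1.1 j)) else α (φ (p.1.1 j) + 1)
  have hcard : Fintype.card ι = F.card * ∑ i ∈ range (t + 1), q.choose i := by
    rw [Fintype.card_coe, Finset.card_product, hB]
  rw [← hcard]
  refine card_le_two_pow x y ?_ ?_
  · intro p
    rw [Finset.prod_ne_zero_iff]
    intro j _
    simp only [x, y]
    split_ifs with h
    · intro h0
      have := hα (sub_eq_zero.mp h0)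
      exact hone (by simpa using this)
    · intro h0
      have := hα (sub_eq_zero.mp h0)
      exact hone (by simpa using this.symm)
  · rintro ⟨⟨v, A⟩, hvA⟩ ⟨⟨w, C⟩, hwC⟩ hne
    simp only [Finset.mem_product, B, Finset.mem_filter, Finset.mem_univ, true_and] at hvA hwC
    by_cases hvw : v = w
    · subst hvw
      have hAC : A ≠ C := by
        rintro rfl
        exact hne rfl
      obtain ⟨j, hj⟩ : ∃ j, ¬ (j ∈ A ↔ j ∈ C) := by
        by_contra hcon
        push Not at hcon
        exact hAC (Finset.ext hcon)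
      refine Finset.prod_eq_zero (Finset.mem_univ j) ?_
      simp only [x, y]
      by_cases h1 : j ∈ A <;> by_cases h2 : j ∈ C
      · exact absurd (by simp [h1, h2]) hj
      · simp [h1, h2]
      · simp [h1, h2]
      · exact absurd (by simp [h1, h2]) hj
    · have hm := many_ones hg hs hgs v w (hF v hvA.1 w hwC.1 hvw)
      obtain ⟨j, hj, hj2⟩ : ∃ j ∈ (univ.filter fun i : Fin q => φ (v i) = φ (w i) + 1),
          j ∉ A ∪ C := by
        by_contra hcon
        push Not at hcon
        have h3 := Finset.card_le_card (fun j hj => hcon j hj)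
        have h4 := Finset.card_union_le A C
        have h5 : s / g ≤ (A ∪ C).card := le_trans hm h3
        omega
      rw [Finset.mem_filter] at hj
      rw [Finset.mem_union, not_or] at hj2
      refine Finset.prod_eq_zero (Finset.mem_univ j) ?_
      simp only [x, y]
      rw [if_neg hj2.1, if_neg hj2.2, hj.2, sub_self]

/-! ### Bounds for `R` -/

/-- The empty family is covering, and covering families have bounded size. -/
theorem R_mul_le {s q c : ℕ} (h : ∀ F : Finset (Fin q → ZMod s), IsCovering s q F →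
    F.card * c ≤ 2 ^ q) : R s q * c ≤ 2 ^ q := by
  by_cases hc : c = 0
  · simp [hc]
  · have hbdd : BddAbove {n : ℕ | ∃ F : Finset (Fin q → ZMod s), IsCovering s q F ∧ F.card = n} := by
      refine ⟨2 ^ q, ?_⟩
      rintro n ⟨F, hF, rfl⟩
      exact le_trans (Nat.le_mul_of_pos_right _ (Nat.pos_of_ne_zero hc)) (h F hF)
    have hne : {n : ℕ | ∃ F : Finset (Fin q → ZMod s), IsCovering s q F ∧ F.card = n}.Nonempty :=
      ⟨0, ∅, by intro v hv; simp at hv, rfl⟩
    obtain ⟨F, hF, hn⟩ := Nat.sSup_mem hne hbdd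
    have h2 := h F hF
    rw [hn] at h2
    exact h2

theorem t_pos {s : ℕ} (hs : 6 ≤ s) (hp : ¬ s.Prime) : 1 ≤ (s / s.minFac - 1) / 2 := by
  have h1 : s.minFac ∣ s := Nat.minFac_dvd s
  have h2 : 2 ≤ s.minFac := (Nat.minFac_prime (by omega)).two_le
  have h3 : s.minFac ^ 2 ≤ s := Nat.minFac_sq_le_self (by omega) hp
  obtain ⟨m, hm⟩ := h1
  have h4 : s / s.minFac = m := by
    conv_lhs => rw [hm]
    rw [← hm]
    exact Nat.div_eq_of_eq_mul_right (by omega) hm
  rw [h4]
  have h5 : 3 ≤ m := by
    by_contra hcon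
    have h6 : m ≤ 2 := by omega
    have h7 : s.minFac * m ≤ s.minFac * 2 := Nat.mul_le_mul_left _ h6
    have h8 : s.minFac ≤ 2 := by nlinarith
    have h9 : s.minFac * 2 ≤ 4 := by omega
    omega
  omega

theorem tendsto_of {r : ℕ → ℕ} (h : ∀ q, r q * (q + 1) ≤ 2 ^ q) :
    Filter.Tendsto (fun q => (r q : ℝ) / 2 ^ q) Filter.atTop (nhds 0) := by
  have h1 : Filter.Tendsto (fun q : ℕ => 1 / ((q : ℝ) + 1)) Filter.atTop (nhds 0) :=
    tendsto_one_div_add_atTop_nhds_zero_nat
  refine squeeze_zero (fun q => by positivity) (fun q => ?_) h1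
  rw [div_le_div_iff₀ (by positivity) (by positivity), one_mul]
  exact_mod_cast h q

/-- **Composite moduli.** For every composite `s ≥ 6`, with `p` the least prime factor of `s` and
`t = ⌊(s/p - 1)/2⌋ ≥ 1`, one has `R(s,q) * ∑_{i ≤ t} C(q,i) ≤ 2^q` for all `q`; in particular
`R(s,q) = o(2^q)`. -/
theorem result : ∀ s : ℕ, 6 ≤ s → ¬ s.Prime →
    1 ≤ (s / s.minFac - 1) / 2 ∧
    (∀ q : ℕ, R s q * ∑ i ∈ range ((s / s.minFac - 1) / 2 + 1), q.choose i ≤ 2 ^ q) ∧
    Filter.Tendsto (fun q : ℕ => (R s q : ℝ) / 2 ^ q) Filter.atTop (nhds 0) := by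
  intro s hs hp
  have h1 := t_pos hs hp
  have hd : s.minFac ∣ s := Nat.minFac_dvd s
  have h2 : 2 ≤ s.minFac := (Nat.minFac_prime (by omega)).two_le
  refine ⟨h1, fun q => R_mul_le fun F hF => main h2 (by omega) hd (by omega) F hF, ?_⟩
  refine tendsto_of fun q => ?_
  have h3 : R s q * ∑ i ∈ range (1 + 1), q.choose i ≤ 2 ^ q :=
    R_mul_le fun F hF => main h2 (by omega) hd (by omega) F hF
  have h4 : ∑ i ∈ range (1 + 1), q.choose i = q + 1 := by
    simp [Finset.sum_range_succ, add_comm]
  rwa [h4] at h3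

end Pool.Agent.Results.MP_28ad66_co.CompositeModulus
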